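import Mathlib
import Pool.Agent.H42.Game.Def
import Pool.Agent.H42.Game.Lower
import Pool.Agent.H42.Game.Strategy
import Pool.Agent.U373.Game.Five

set_option autoImplicit false

namespace Pool.Agent.Results.MP_f2e062_co.ExactlyFive

open H42Game (PlayerOneWins)

/-- The least `c` for which Player 1 has a strategy in the `c`-ary sequence game (avoiding all
repetitions of total length at least `3`) is exactly `5`; moreover Player 1 has such a strategy for
every `c ≥ 5`. -/
theorem result :
    IsLeast {c : ℕ | PlayerOneWins c} 5 ∧ ∀ c : ℕ, 5 ≤ c → PlayerOneWins c := by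
  refine ⟨⟨Pool.Agent.U373.Game.five, fun c hc => ?_⟩, fun c hc => ?_⟩
  · by_contra hlt
    exact H42Game.lower (by omega) hc
  · rcases Nat.lt_or_ge 5 c with h | h
    · exact H42Game.upper (by omega)
    · have : c = 5 := by omega
      subst this
      exact Pool.Agent.U373.Game.five

end Pool.Agent.Results.MP_f2e062_co.ExactlyFive
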